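import Mathlib
import Pool.Agent.P.MP_1441be_gt.Main

namespace Pool.Agent.Results.MP_1441be_gt.NoEmbedding

theorem result (n m : ℕ) (hnm : n < m) :
    ¬ ∃ T : {f : (Fin m → Set.Icc (0 : ℝ) 1) → ℝ //
              ∀ (i : Fin m) (x : Fin m → Set.Icc (0 : ℝ) 1),
                Continuous fun t : Set.Icc (0 : ℝ) 1 => f (Function.update x i t)} →
            {f : (Fin n → Set.Icc (0 : ℝ) 1) → ℝ //
              ∀ (i : Fin n) (x : Fin n → Set.Icc (0 : ℝ) 1),
                Continuous fun t : Set.Icc (0 : ℝ) 1 => f (Function.update x i t)},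
      Topology.IsEmbedding T :=
  Pool.Agent.P.MP_1441be_gt.main n m hnm

end Pool.Agent.Results.MP_1441be_gt.NoEmbedding
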